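import Pool.Agent.TH977.PW.Inst

set_option autoImplicit false

/-!
# Regular neighbourhoods of the `m` for which `m ^ 2 + 1` and `m ^ 2 + 3` are prime

Let `R r` be the set of the `m` for which all prime factors of `m ^ 2 + 1` and `m ^ 2 + 3` are larger
than `m ^ (1 / r)`; it contains all admissible `m` of the problem. In every short interval `(X, X + Y]`,
`Y ≥ X ^ θ`, there are at least `κ Y / log ^ 2 X` integers `m` in `R r` for which `m ^ 2 + 1` and
`m ^ 2 + 3` have at most `r` prime factors. Let `A` be an ARBITRARY subset of `R r` (for example the set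
of all admissible `m`). In every short interval `(X, X + Y]`, `X ^ θ ≤ Y ≤ X / 2`, all but
`ε Y / log ^ 2 X` of the elements of `A` are regular points of `A`: the elements of `A` in ALL intervals
of length between `(log ^ 2 X) / c` and `Y` around them have the right order, and constant density up
to `δ` at all but `B (ε, δ)` dyadic scales.
-/

namespace Pool.Agent.Results.MP_2dba45_nt.RegularNeighbourhoods

open Finset Filter Polynomial
open Pool.Agent.TH977.PW (N Irregular)
open Pool.Agent.TH464.PW (quad quad_eval quad_irr quad_deg quad_lead)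

/-- All prime factors of `m ^ 2 + 1` and `m ^ 2 + 3` are larger than `m ^ (1 / r)`. -/
def R (r : ℕ) : Set ℕ :=
  {m | ∀ p : ℕ, p.Prime → p ∣ m ^ 2 + 1 ∨ p ∣ m ^ 2 + 3 → (m : ℝ) ^ (1 / (r : ℝ)) < p}

/-- the polynomials `X ^ 2 + 1` and `X ^ 2 + 3` -/
noncomputable def f (i : Fin 2) : ℤ[X] := quad 1 0 (2 * (i : ℕ) + 1)

theorem f_eval (i : Fin 2) (m : ℕ) : (f i).eval (m : ℤ) = ((m ^ 2 + (2 * (i : ℕ) + 1) : ℕ) : ℤ) := by
  unfold f
  rw [quad_eval]
  push_cast
  ring

/-- **Regular neighbourhoods of the `m` for which `m ^ 2 + 1` and `m ^ 2 + 3` are prime.** -/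
theorem result (θ : ℝ) (hθ : 0 < θ) (hθ1 : θ ≤ 1) :
    ∃ r₀ : ℕ, 2 ≤ r₀ ∧ ∀ r : ℕ, r₀ ≤ r →
      -- the admissible `m` belong to `R r`
      (∀ m : ℕ, (m ^ 2 + 1).Prime → (m ^ 2 + 3).Prime → m ∈ R r) ∧
      -- lower bound in short intervals
      (∃ κ : ℝ, 0 < κ ∧ ∀ᶠ X : ℕ in atTop, ∀ Y : ℕ, (X : ℝ) ^ θ ≤ Y → Y ≤ X →
        κ * Y / Real.log X ^ 2 ≤ N {m | m ∈ R r ∧ (m ^ 2 + 1).primeFactorsList.length ≤ r ∧
          (m ^ 2 + 3).primeFactorsList.length ≤ r} X (X + Y)) ∧
      -- regular neighbourhoods of the elements of an arbitrary subset of `R r`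
      ∀ ε : ℝ, 0 < ε → ∃ c : ℝ, 0 < c ∧ ∀ δ : ℝ, 0 < δ → ∃ B : ℕ,
        ∀ᶠ X : ℕ in atTop, ∀ Y : ℕ, (X : ℝ) ^ θ ≤ Y → 2 * Y ≤ X → ∀ A : Set ℕ, A ⊆ R r →
          (N (Irregular A 2 c δ B X Y) X (X + Y) : ℝ) ≤ ε * Y / Real.log X ^ 2 := by
  have hirr : ∀ i : Fin 2, Irreducible (f i) := by
    intro i
    apply quad_irr _ _ _ one_ne_zero
    · intro p hp h
      exact hp.one_lt.ne' (Nat.dvd_one.1 (by exact_mod_cast h.1))
    · intro h
      have h1 := h.nonneg
      have h2 : (0 : ℤ) ≤ ((i : ℕ) : ℤ) := by positivity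
      nlinarith
  obtain ⟨r0, hr0, h⟩ := Pool.Agent.TH977.PW.final f
    { irr := hirr
      deg := fun i => by unfold f; rw [quad_deg _ _ _ one_ne_zero]; norm_num
      lead := fun i => by unfold f; rw [quad_lead _ _ _ one_ne_zero]; norm_num
      inj := fun i j hij => by
        have h1 := congrArg (fun Q : ℤ[X] => Q.eval ((0 : ℕ) : ℤ)) hij
        simp only [f_eval] at h1
        have h2 : 0 ^ 2 + (2 * (i : ℕ) + 1) = 0 ^ 2 + (2 * (j : ℕ) + 1) := by exact_mod_cast h1
        apply Fin.ext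
        omega
      adm := fun p hp => by
        by_cases h7 : p = 7 ∨ p = 5
        · refine ⟨6, fun i => ?_⟩
          rw [f_eval, Int.natCast_dvd_natCast]
          rcases h7 with rfl | rfl <;> fin_cases i <;> norm_num
        · refine ⟨2, fun i => ?_⟩
          rw [f_eval, Int.natCast_dvd_natCast]
          intro hd
          fin_cases i
          · exact h7 (Or.inr ((Nat.prime_dvd_prime_iff_eq hp (by norm_num)).1 hd))
          · exact h7 (Or.inl ((Nat.prime_dvd_prime_iff_eq hp (by norm_num)).1 hd)) }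
    (fun r => R r)
    (fun r => {m | m ∈ R r ∧ (m ^ 2 + 1).primeFactorsList.length ≤ r ∧
          (m ^ 2 + 3).primeFactorsList.length ≤ r}) 2
    (by rw [Fintype.card_fin])
    (fun r m _ hm i p hp hd => by
      rw [f_eval, Int.natCast_dvd_natCast] at hd
      fin_cases i
      · exact hm p hp (Or.inl hd)
      · exact hm p hp (Or.inr hd))
    (fun r m _ h1 h2 => by
      have e0 : (f 0).eval (m : ℤ) = ((m ^ 2 + 1 : ℕ) : ℤ) := f_eval 0 m
      have e1 : (f 1).eval (m : ℤ) = ((m ^ 2 + 3 : ℕ) : ℤ) := f_eval 1 m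
      refine ⟨fun p hp hd => ?_, ?_, ?_⟩
      · rcases hd with hd | hd
        · exact h1 0 p hp (by rw [e0]; exact_mod_cast hd)
        · exact h1 1 p hp (by rw [e1]; exact_mod_cast hd)
      · have := h2 0
        rw [e0, Int.natAbs_natCast] at this
        exact this
      · have := h2 1
        rw [e1, Int.natAbs_natCast] at this
        exact this) θ hθ hθ1
  refine ⟨r0, hr0, fun r hr => ⟨?_, (h r hr).1, (h r hr).2⟩⟩
  intro m h1 h3 p hp hd
  rcases Nat.lt_or_ge m 2 with hm | hm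
  · have h5 : (m : ℝ) ^ (1 / (r : ℝ)) ≤ 1 := by
      apply Real.rpow_le_one (by positivity) _ (by positivity)
      exact_mod_cast (by omega : m ≤ 1)
    have h6 : (1 : ℝ) < p := by exact_mod_cast hp.one_lt
    linarith
  · rcases hd with hd | hd
    · rw [(Nat.prime_dvd_prime_iff_eq hp h1).1 hd]
      exact Pool.Agent.TH977.PW.rpow_lt_of_le r m _ (hr0.trans hr) hm (by nlinarith)
    · rw [(Nat.prime_dvd_prime_iff_eq hp h3).1 hd]
      exact Pool.Agent.TH977.PW.rpow_lt_of_le r m _ (hr0.trans hr) hm (by nlinarith)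

end Pool.Agent.Results.MP_2dba45_nt.RegularNeighbourhoods
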