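import Pool.Agent.TH977.PW.Inst

set_option autoImplicit false

/-!
# Regular neighbourhoods of the `m` for which `m ^ 3 + k` is prime

Let `k` be an integer which is not a cube. Let `R r` be the set of the `m` for which all prime factors
of `m ^ 3 + k` are larger than `m ^ (1 / r)`; it contains all large `m` for which `m ^ 3 + k` is prime.
In every short interval `(X, X + Y]`, `Y ≥ X ^ θ`, there are at least `κ Y / log X` integers `m` in
`R r` for which `m ^ 3 + k` has at most `r` prime factors. Let `A` be an ARBITRARY subset of `R r` (for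
example the set of all the large `m` for which `m ^ 3 + k` is prime). In every short interval
`(X, X + Y]`, `X ^ θ ≤ Y ≤ X / 2`, all but `ε Y / log X` of the elements of `A` are regular points of
`A`: the elements of `A` in ALL intervals of length between `(log X) / c` and `Y` around them have the
right order, and constant density up to `δ` at all but `B (ε, δ)` dyadic scales.
-/

namespace Pool.Agent.Results.MP_4d57ea_nt.RegularNeighbourhoods

open Finset Filter Polynomial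
open Pool.Agent.TH977.PW (N Irregular)

/-- All prime factors of `m ^ 3 + k` are larger than `m ^ (1 / r)`. -/
def R (k : ℤ) (r : ℕ) : Set ℕ :=
  {m | ∀ p : ℕ, p.Prime → (p : ℤ) ∣ (m : ℤ) ^ 3 + k → (m : ℝ) ^ (1 / (r : ℝ)) < p}

/-- the polynomial `X ^ 3 + k` -/
noncomputable def f (k : ℤ) : ℤ[X] := X ^ 3 + C k

theorem f_eval (k m : ℤ) : (f k).eval m = m ^ 3 + k := by
  unfold f
  simp

theorem f_deg (k : ℤ) : (f k).natDegree = 3 := natDegree_X_pow_add_C

theorem f_monic (k : ℤ) : (f k).Monic := monic_X_pow_add_C k (by norm_num)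

/-- `X ^ 3 + k` is irreducible if `k` is not a cube. -/
theorem f_irr (k : ℤ) (hk : ∀ a : ℤ, k ≠ a ^ 3) : Irreducible (f k) := by
  have hm := f_monic k
  have hdeg : (f k).natDegree = 3 := f_deg k
  rw [Polynomial.Monic.irreducible_iff_roots_eq_zero_of_degree_le_three hm (by omega) (by omega)]
  rw [Multiset.eq_zero_iff_forall_notMem]
  intro a ha
  rw [mem_roots hm.ne_zero, IsRoot.def, f_eval] at ha
  apply hk (-a)
  linarith [show (-a) ^ 3 = -(a ^ 3) by ring]

/-- the large `m` for which `m ^ 3 + k` is prime belong to `R r` -/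
theorem large (k : ℤ) (r : ℕ) (hr : 2 ≤ r) :
    ∀ᶠ m : ℕ in atTop, (∃ P : ℕ, P.Prime ∧ (m : ℤ) ^ 3 + k = P) → m ∈ R k r := by
  filter_upwards [eventually_ge_atTop (k.natAbs + 2)] with m hm hP
  obtain ⟨P, hP, he⟩ := hP
  intro p hp h
  rw [he] at h
  have hpP : p = P := (Nat.prime_dvd_prime_iff_eq hp hP).1 (by exact_mod_cast h)
  subst hpP
  apply Pool.Agent.TH977.PW.rpow_lt_of_le r m p hr (by omega)
  have h1 : |k| + 2 ≤ (m : ℤ) := by
    rw [Int.abs_eq_natAbs]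
    exact_mod_cast hm
  have hk := neg_abs_le k
  have hk0 := abs_nonneg k
  have h2 : (m : ℤ) * 4 ≤ (m : ℤ) ^ 3 := by nlinarith [sq_nonneg ((m : ℤ) - 2)]
  have h3 : (m : ℤ) ≤ (m : ℤ) ^ 3 + k := by linarith
  rw [he] at h3
  exact_mod_cast h3

/-- no fixed prime divisor -/
theorem f_adm (k : ℤ) (p : ℕ) (hp : p.Prime) : ∃ m : ℕ, ¬ (p : ℤ) ∣ (f k).eval (m : ℤ) := by
  by_contra hcon
  push Not at hcon
  have h0 := hcon 0
  have h1 := hcon 1
  rw [f_eval] at h0 h1
  have h2 := dvd_sub h1 h0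
  have e : ((1 : ℕ) : ℤ) ^ 3 + k - (((0 : ℕ) : ℤ) ^ 3 + k) = ((1 : ℕ) : ℤ) := by push_cast; ring
  rw [e, Int.natCast_dvd_natCast] at h2
  exact hp.one_lt.ne' (Nat.dvd_one.1 h2)

/-- **Regular neighbourhoods of the `m` for which `m ^ 3 + k` is prime.** -/
theorem result (k : ℤ) (hk : ∀ a : ℤ, k ≠ a ^ 3) (θ : ℝ) (hθ : 0 < θ) (hθ1 : θ ≤ 1) :
    ∃ r₀ : ℕ, 2 ≤ r₀ ∧ ∀ r : ℕ, r₀ ≤ r →
      -- the large arguments of prime values belong to `R r`
      (∀ᶠ m : ℕ in atTop, (∃ p : ℕ, p.Prime ∧ (m : ℤ) ^ 3 + k = p) → m ∈ R k r) ∧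
      -- lower bound in short intervals
      (∃ κ : ℝ, 0 < κ ∧ ∀ᶠ X : ℕ in atTop, ∀ Y : ℕ, (X : ℝ) ^ θ ≤ Y → Y ≤ X →
        κ * Y / Real.log X ≤ N {m | m ∈ R k r ∧
          ((m : ℤ) ^ 3 + k).natAbs.primeFactorsList.length ≤ r} X (X + Y)) ∧
      -- regular neighbourhoods of the elements of an arbitrary subset of `R r`
      ∀ ε : ℝ, 0 < ε → ∃ c : ℝ, 0 < c ∧ ∀ δ : ℝ, 0 < δ → ∃ B : ℕ,
        ∀ᶠ X : ℕ in atTop, ∀ Y : ℕ, (X : ℝ) ^ θ ≤ Y → 2 * Y ≤ X → ∀ A : Set ℕ, A ⊆ R k r →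
          (N (Irregular A 1 c δ B X Y) X (X + Y) : ℝ) ≤ ε * Y / Real.log X := by
  obtain ⟨r0, hr0, h⟩ := Pool.Agent.TH977.PW.final (fun _ : Fin 1 => f k)
    { irr := fun _ => f_irr k hk
      deg := fun _ => by rw [f_deg]; norm_num
      lead := fun _ => by rw [(f_monic k).leadingCoeff]; norm_num
      inj := fun _ _ _ => Subsingleton.elim _ _
      adm := fun p hp => by
        obtain ⟨m, hm⟩ := f_adm k p hp
        exact ⟨m, fun _ => hm⟩ }
    (fun r => R k r)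
    (fun r => {m | m ∈ R k r ∧ ((m : ℤ) ^ 3 + k).natAbs.primeFactorsList.length ≤ r}) 1
    (by rw [Fintype.card_fin])
    (fun r m _ hm _ p hp hd => hm p hp (by rwa [f_eval] at hd))
    (fun r m _ h1 h2 => ⟨fun p hp hd => h1 0 p hp (by rwa [f_eval]), by
      have := h2 0
      rwa [f_eval] at this⟩) θ hθ hθ1
  refine ⟨r0, hr0, fun r hr => ⟨large k r (hr0.trans hr), ?_, ?_⟩⟩
  · obtain ⟨κ, hκ, h1⟩ := (h r hr).1
    refine ⟨κ, hκ, ?_⟩
    filter_upwards [h1] with X hX Y hY1 hY2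
    have := hX Y hY1 hY2
    rwa [pow_one] at this
  · intro ε hε
    obtain ⟨c, hc, h1⟩ := (h r hr).2 ε hε
    refine ⟨c, hc, fun δ hδ => ?_⟩
    obtain ⟨B, h2⟩ := h1 δ hδ
    refine ⟨B, ?_⟩
    filter_upwards [h2] with X hX Y hY1 hY2 A hA
    have := hX Y hY1 hY2 A hA
    rwa [pow_one] at this

end Pool.Agent.Results.MP_4d57ea_nt.RegularNeighbourhoods
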