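import Pool.Agent.TH977.PW.Inst

set_option autoImplicit false

/-!
# Regular neighbourhoods of the arguments of prime values of quadratic polynomials

Let `f(m) = a m ^ 2 + b m + c` be admissible. Let `R r` be the set of the `m` for which all prime
factors of `f(m)` are larger than `m ^ (1 / r)`; it contains all large `m` for which `f(m)` is prime.
In every short interval `(X, X + Y]`, `Y ≥ X ^ θ`, there are at least `κ Y / log X` integers `m` in
`R r` for which `f(m)` has at most `r` prime factors. Let `A` be an ARBITRARY subset of `R r` (for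
example the set of all the large `m` for which `f(m)` is prime). In every short interval `(X, X + Y]`,
`X ^ θ ≤ Y ≤ X / 2`, all but `ε Y / log X` of the elements of `A` are regular points of `A`: the
elements of `A` in ALL intervals of length between `(log X) / C` and `Y` around them have the right
order, and constant density up to `δ` at all but `B (ε, δ)` dyadic scales.
-/

namespace Pool.Agent.Results.MP_a1177c_nt.RegularNeighbourhoods

open Finset Filter
open Pool.Agent.TH977.PW (N Irregular)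
open Pool.Agent.TH464.PW (quad quad_eval quad_irr quad_deg quad_lead quad_adm)

/-- All prime factors of `a m ^ 2 + b m + c` are larger than `m ^ (1 / r)`. -/
def R (a b c : ℤ) (r : ℕ) : Set ℕ :=
  {m | ∀ p : ℕ, p.Prime → (p : ℤ) ∣ a * (m : ℤ) ^ 2 + b * m + c → (m : ℝ) ^ (1 / (r : ℝ)) < p}

/-- the large `m` for which `a m ^ 2 + b m + c` is prime belong to `R r` -/
theorem large (a b c : ℤ) (ha : 0 < a) (r : ℕ) (hr : 2 ≤ r) :
    ∀ᶠ m : ℕ in atTop, (∃ P : ℕ, P.Prime ∧ a * (m : ℤ) ^ 2 + b * m + c = P) → m ∈ R a b c r := by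
  filter_upwards [eventually_ge_atTop (b.natAbs + c.natAbs + 2)] with m hm hP
  obtain ⟨P, hP, he⟩ := hP
  intro p hp h
  rw [he] at h
  have hpP : p = P := (Nat.prime_dvd_prime_iff_eq hp hP).1 (by exact_mod_cast h)
  subst hpP
  apply Pool.Agent.TH977.PW.rpow_lt_of_le r m p hr (by omega)
  have h1 : |b| + |c| + 2 ≤ (m : ℤ) := by
    rw [Int.abs_eq_natAbs, Int.abs_eq_natAbs]
    exact_mod_cast hm
  have h2 : (m : ℤ) ≤ a * (m : ℤ) ^ 2 + b * m + c := by
    have hb := neg_abs_le b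
    have hc := neg_abs_le c
    have hb0 := abs_nonneg b
    have hc0 := abs_nonneg c
    have hm0 : (0 : ℤ) ≤ m := by positivity
    have h3 : (m : ℤ) ^ 2 ≤ a * (m : ℤ) ^ 2 := by nlinarith [sq_nonneg (m : ℤ)]
    have h4 : -|b| * m ≤ b * m := mul_le_mul_of_nonneg_right hb hm0
    have h5 : (|b| + |c| + 2) * (m : ℤ) ≤ m * m := mul_le_mul_of_nonneg_right h1 hm0
    have h6 : |c| ≤ |c| * m := by nlinarith
    nlinarith
  rw [he] at h2
  exact_mod_cast h2

/-- **Regular neighbourhoods of the arguments of prime values of quadratic polynomials.** -/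
theorem result (a b c : ℤ) (ha : 0 < a)
    (hg : ∀ p : ℕ, p.Prime → ¬ ((p : ℤ) ∣ a ∧ (p : ℤ) ∣ b ∧ (p : ℤ) ∣ c))
    (hpar : ¬ (Even (a + b) ∧ Even c)) (hD : ¬ IsSquare (b ^ 2 - 4 * a * c))
    (θ : ℝ) (hθ : 0 < θ) (hθ1 : θ ≤ 1) :
    ∃ r₀ : ℕ, 2 ≤ r₀ ∧ ∀ r : ℕ, r₀ ≤ r →
      -- the large arguments of prime values belong to `R r`
      (∀ᶠ m : ℕ in atTop, (∃ p : ℕ, p.Prime ∧ a * (m : ℤ) ^ 2 + b * m + c = p) →
        m ∈ R a b c r) ∧
      -- lower bound in short intervals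
      (∃ κ : ℝ, 0 < κ ∧ ∀ᶠ X : ℕ in atTop, ∀ Y : ℕ, (X : ℝ) ^ θ ≤ Y → Y ≤ X →
        κ * Y / Real.log X ≤ N {m | m ∈ R a b c r ∧
          (a * (m : ℤ) ^ 2 + b * m + c).natAbs.primeFactorsList.length ≤ r} X (X + Y)) ∧
      -- regular neighbourhoods of the elements of an arbitrary subset of `R r`
      ∀ ε : ℝ, 0 < ε → ∃ C : ℝ, 0 < C ∧ ∀ δ : ℝ, 0 < δ → ∃ B : ℕ,
        ∀ᶠ X : ℕ in atTop, ∀ Y : ℕ, (X : ℝ) ^ θ ≤ Y → 2 * Y ≤ X → ∀ A : Set ℕ, A ⊆ R a b c r →
          (N (Irregular A 1 C δ B X Y) X (X + Y) : ℝ) ≤ ε * Y / Real.log X := by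
  obtain ⟨r0, hr0, h⟩ := Pool.Agent.TH977.PW.final (fun _ : Fin 1 => quad a b c)
    { irr := fun _ => quad_irr a b c ha.ne' hg hD
      deg := fun _ => by rw [quad_deg a b c ha.ne']; norm_num
      lead := fun _ => by rw [quad_lead a b c ha.ne']; exact ha
      inj := fun _ _ _ => Subsingleton.elim _ _
      adm := fun p hp => by
        obtain ⟨m, hm⟩ := quad_adm a b c hg hpar p hp
        exact ⟨m, fun _ => hm⟩ }
    (fun r => R a b c r)
    (fun r => {m | m ∈ R a b c r ∧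
      (a * (m : ℤ) ^ 2 + b * m + c).natAbs.primeFactorsList.length ≤ r}) 1 (by rw [Fintype.card_fin])
    (fun r m _ hm _ p hp hd => hm p hp (by rwa [quad_eval] at hd))
    (fun r m _ h1 h2 => ⟨fun p hp hd => h1 0 p hp (by rwa [quad_eval]), by
      have := h2 0
      rwa [quad_eval] at this⟩) θ hθ hθ1
  refine ⟨r0, hr0, fun r hr => ⟨large a b c ha r (hr0.trans hr), ?_, ?_⟩⟩
  · obtain ⟨κ, hκ, h1⟩ := (h r hr).1
    refine ⟨κ, hκ, ?_⟩
    filter_upwards [h1] with X hX Y hY1 hY2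
    have := hX Y hY1 hY2
    rwa [pow_one] at this
  · intro ε hε
    obtain ⟨C, hC, h1⟩ := (h r hr).2 ε hε
    refine ⟨C, hC, fun δ hδ => ?_⟩
    obtain ⟨B, h2⟩ := h1 δ hδ
    refine ⟨B, ?_⟩
    filter_upwards [h2] with X hX Y hY1 hY2 A hA
    have := hX Y hY1 hY2 A hA
    rwa [pow_one] at this

end Pool.Agent.Results.MP_a1177c_nt.RegularNeighbourhoods
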