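import Pool.Agent.R498.MP.LinC

set_option autoImplicit false

/-!
# Strings of consecutive primes `q` in a residue class with almost prime `a i + q d i`

Let `(a i, d i)`, `i < k`, be pairs of integers with `d i > 0` such that `n ∏ (a i + n d i)` has no
fixed prime divisor; for `k = 1` this is the hypothesis of the problem: `gcd(a, d) = 1` and `2 ∣ a d`.
From every large set `S` of shifts one can choose many elements `s` such that all `x + s` are primes
`p ≡ c` modulo `Q` with almost prime `a i + p d i`, for all `x` in a progression of length `l` with a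
difference below a power of `log N`; no other `x + y` in the range is prime, with the possible exception
of `x + y = x + s + a i` with `d i = 1`, which is one of the almost primes if `s` is chosen.
-/

namespace Pool.Agent.Results.MP_8bf9c2_nt.PrimeStrings

open Finset Filter Polynomial

/-- `n ∏ (a i + n d i)` has no fixed prime divisor. -/
def Admissible {k : ℕ} (a : Fin k → ℤ) (d : Fin k → ℕ) : Prop :=
  ∀ p : ℕ, p.Prime → ∃ n : ℕ, ¬ p ∣ n ∧ ∀ i, ¬ (p : ℤ) ∣ a i + n * d i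

/-- `n ≠ 0` is up to the sign a product of at most `r` primes, all of them at least `w`. -/
def AlmostPrime (r : ℕ) (w : ℝ) (n : ℤ) : Prop :=
  n ≠ 0 ∧ n.natAbs.primeFactorsList.length ≤ r ∧ ∀ p : ℕ, p.Prime → (p : ℤ) ∣ n → w ≤ p

/-- the hypothesis of the problem is the local condition for one pair -/
theorem adm_one (a : ℤ) (d : ℕ) (h : Int.gcd a d = 1) (h2 : 2 ∣ a * d) :
    Admissible (fun _ : Fin 1 => a) (fun _ => d) := by
  intro p hp
  have hpZ : Prime (p : ℤ) := Nat.prime_iff_prime_int.1 hp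
  have hno : ¬ ((p : ℤ) ∣ a ∧ (p : ℤ) ∣ (d : ℤ)) := by
    rintro ⟨h3, h4⟩
    have h5 := Int.dvd_coe_gcd h3 h4
    rw [h] at h5
    exact hp.one_lt.ne' (Nat.dvd_one.1 (by exact_mod_cast h5))
  by_cases h1 : (p : ℤ) ∣ a + ((1 : ℕ) : ℤ) * d
  · have hp2 : p ≠ 2 := by
      rintro rfl
      push_cast at h1 hno
      rcases (Nat.prime_iff_prime_int.1 Nat.prime_two).dvd_or_dvd h2 with h3 | h3
      · push_cast at h3
        exact hno ⟨h3, by omega⟩
      · push_cast at h3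
        exact hno ⟨by omega, h3⟩
    refine ⟨2, fun h3 => hp2 ((Nat.prime_dvd_prime_iff_eq hp Nat.prime_two).1 h3), fun _ h4 => ?_⟩
    have h5 : (p : ℤ) ∣ (d : ℤ) := by
      have h6 := dvd_sub h4 h1
      have e : a + ((2 : ℕ) : ℤ) * d - (a + ((1 : ℕ) : ℤ) * d) = d := by push_cast; ring
      rwa [e] at h6
    have h6 : (p : ℤ) ∣ a := by
      have h7 := dvd_sub h1 (h5.mul_left ((1 : ℕ) : ℤ))
      simpa using h7
    exact hno ⟨h6, h5⟩
  · exact ⟨1, fun h3 => hp.one_lt.ne' (Nat.dvd_one.1 h3), fun _ => h1⟩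

theorem cop {k : ℕ} (a : Fin k → ℤ) (d : Fin k → ℕ) (h : Admissible a d) (i : Fin k) :
    IsCoprime (d i : ℤ) (a i) := by
  rw [Int.isCoprime_iff_gcd_eq_one]
  by_contra hne
  obtain ⟨p, hp, hpd⟩ := Nat.exists_prime_and_dvd hne
  have h1 : (p : ℤ) ∣ (d i : ℤ) := (Int.natCast_dvd_natCast.2 hpd).trans (Int.gcd_dvd_left ..)
  have h2 : (p : ℤ) ∣ a i := (Int.natCast_dvd_natCast.2 hpd).trans (Int.gcd_dvd_right ..)
  obtain ⟨m, -, h3⟩ := h p hp
  exact h3 i (dvd_add h2 (h1.mul_left _))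

theorem one_of_zero {k : ℕ} (a : Fin k → ℤ) (d : Fin k → ℕ) (h : Admissible a d) (i : Fin k)
    (n : ℤ) (h0 : a i + n * d i = 0) : d i = 1 := by
  have h1 : (d i : ℤ) ∣ a i := ⟨-n, by linarith⟩
  have h2 : IsUnit (d i : ℤ) := (cop a d h i).isUnit_of_dvd' dvd_rfl h1
  have h3 := Int.isUnit_iff.1 h2
  omega

theorem adm_prod {k : ℕ} (a : Fin k → ℤ) (d : Fin k → ℕ) (h : Admissible a d) (p : ℕ)
    (hp : p.Prime) : ∃ n : ℤ, ¬ (p : ℤ) ∣ n * ∏ i, ((d i : ℤ) * n + a i) := by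
  have hpZ : Prime (p : ℤ) := Nat.prime_iff_prime_int.1 hp
  obtain ⟨n, h1, h2⟩ := h p hp
  refine ⟨n, fun h3 => ?_⟩
  rcases hpZ.dvd_or_dvd h3 with h4 | h4
  · exact h1 (by exact_mod_cast h4)
  · obtain ⟨i, _, h5⟩ := (hpZ.dvd_finsetProd_iff _).1 h4
    apply h2 i
    have e : (d i : ℤ) * n + a i = a i + n * d i := by ring
    rwa [e] at h5

/-- **Strings of consecutive primes `p ≡ c` modulo `Q` with almost prime `a i + p d i`.** -/
theorem result :
    -- the hypothesis of the problem is the local condition for one pair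
    (∀ (a : ℤ) (d : ℕ), Int.gcd a d = 1 → 2 ∣ a * d →
      Admissible (fun _ : Fin 1 => a) (fun _ => d)) ∧
    ∀ (k : ℕ) (a : Fin k → ℤ) (d : Fin k → ℕ), (∀ i, 0 < d i) → Admissible a d →
    ∀ Q c : ℕ, Squarefree Q → IsCoprime ((c : ℤ) * ∏ i, (a i + c * d i)) (Q : ℤ) →
    ∀ m : ℕ, ∃ (K r : ℕ) (δ : ℝ), 0 < δ ∧ ∀ S : Finset ℕ, K ≤ S.card → ∀ l : ℕ,
      ∃ B : ℕ, ∀ᶠ N : ℕ in atTop, ∃ H ⊆ S, m ≤ H.card ∧ ∃ n D : ℕ, 1 ≤ D ∧
        (D : ℝ) ≤ Real.log N ^ B ∧ ∀ j < l, N < n + j * D ∧ n + j * D + S.sup id ≤ 2 * N ∧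
          (∀ s ∈ H, (n + j * D + s).Prime ∧ n + j * D + s ≡ c [MOD Q] ∧
            ∀ i, AlmostPrime r ((N : ℝ) ^ δ) (a i + (n + j * D + s : ℕ) * d i)) ∧
          ∀ y ≤ S.sup id, y ∉ H → (∀ s ∈ S, ∀ i, d i = 1 → (y : ℤ) ≠ s + a i) →
            ¬ (n + j * D + y).Prime := by
  refine ⟨adm_one, fun k a d hd hadm Q c hQ hc m => ?_⟩
  obtain ⟨K, r, δ, hδ, hmain⟩ := Pool.Agent.R498.MP.lin_runsC k (fun i => (d i : ℤ)) a
    (fun i => by have := hd i; positivity) (adm_prod a d hadm) Q c hQ (by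
      have e : ∏ i, ((d i : ℤ) * (c : ℤ) + a i) = ∏ i, (a i + c * d i) :=
        prod_congr rfl fun i _ => by ring
      rw [e]
      exact hc) m
  refine ⟨K, r, δ, hδ, fun S hS l => ?_⟩
  obtain ⟨B, hB⟩ := hmain S hS l
  refine ⟨B, ?_⟩
  filter_upwards [hB] with N hN
  obtain ⟨H, hH, hHm, n, D, h1, h2, h3⟩ := hN
  refine ⟨H, hH, hHm, n, D, h1, h2, fun j hj => ?_⟩
  obtain ⟨g1, g2, g3, g4⟩ := h3 j hj
  refine ⟨g1, g2, fun s hs => ?_, fun y hy hyH hyS => g4 y hy hyH ?_⟩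
  · obtain ⟨g5, g6, g7⟩ := g3 s hs
    refine ⟨g5, g6, fun i => ?_⟩
    have h7 := g7 i
    have e : (d i : ℤ) * ((n + j * D + s : ℕ) : ℤ) + a i = a i + (n + j * D + s : ℕ) * d i := by
      ring
    rw [e] at h7
    exact h7
  · intro s hs _ i h0
    have h4 : d i = 1 := one_of_zero a d hadm i ((s : ℤ) - y) (by linarith)
    apply hyS s hs i h4
    rw [h4] at h0
    push_cast at h0
    linarith

end Pool.Agent.Results.MP_8bf9c2_nt.PrimeStrings
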